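import Pool.Agent.H9.TD.Main

/-!
# Tree-connectivity polynomial in the number of edges of the tree suffices

`T` is a tree with `m` edges. Every finite simple graph with `10 ^ 12 * m ^ 12` edge-disjoint
connected spanning subgraphs (for instance spanning trees) whose number of edges is divisible by `m`
has a `T`-edge-decomposition. More generally it is enough that the graph is
`10 ^ 12 * m ^ 12`-edge-connected.
-/

set_option autoImplicit false

namespace Pool.Agent.Results.MP_1c8ed6_co.PolynomialTreeConnectivity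

open Pool.Agent.H9.TD in
/-- The decomposition for graphs all of whose cuts are large. -/
theorem core {V : Type} [Fintype V] [DecidableEq V] (G : SimpleGraph V) [DecidableRel G.Adj]
    {W : Type} [Fintype W] [DecidableEq W] (T : SimpleGraph W) [DecidableRel T.Adj]
    (hT : T.IsTree)
    (hcut : ∀ U : Finset V, U.Nonempty → U ≠ Finset.univ →
      1000000000000 * T.edgeFinset.card ^ 12 ≤
        {p : V × V | G.Adj p.1 p.2 ∧ p.1 ∈ U ∧ p.2 ∉ U}.ncard)
    (hdiv : T.edgeFinset.card ∣ G.edgeFinset.card) :
    ∃ (n : ℕ) (H : Fin n → G.Subgraph),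
      (∀ i, Nonempty (T ≃g (H i).coe)) ∧
      Pairwise (fun i j => Disjoint (H i).edgeSet (H j).edgeSet) ∧
      (∀ e ∈ G.edgeSet, ∃ i, e ∈ (H i).edgeSet) := by
  classical
  set m := T.edgeFinset.card with hm
  have hm' : T.edgeSet.ncard = m := by
    rw [hm, ← SimpleGraph.coe_edgeFinset T, Set.ncard_coe_finset]
  have hG' : G.edgeSet.ncard = G.edgeFinset.card := by
    rw [← SimpleGraph.coe_edgeFinset G, Set.ncard_coe_finset]
  have key : ∃ (k : ℕ) (H : Fin k → G.Subgraph),
      (∀ i, Nonempty (T ≃g (H i).coe)) ∧ ∀ e ∈ G.edgeSet, ∃! i, e ∈ (H i).edgeSet := by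
    rcases Nat.eq_zero_or_pos m with h0 | hpos
    · rw [h0, zero_dvd_iff, ← hG', Set.ncard_eq_zero (Set.toFinite _)] at hdiv
      refine ⟨0, fun i => i.elim0, fun i => i.elim0, ?_⟩
      intro e he
      rw [hdiv] at he
      exact absurd he (Set.notMem_empty e)
    · obtain ⟨w, par, hpar, hadj⟩ := T4.tree_enum T hT m hm'
      apply subgraphs_of_TDec T m w par hpar hadj
      refine dec_of_cuts G m hpos par hpar hcut ?_
      rw [hG']
      exact hdiv
  obtain ⟨k, H, h1, h2⟩ := key
  refine ⟨k, H, h1, ?_, fun e he => (h2 e he).exists⟩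
  intro i j hij
  show Disjoint (H i).edgeSet (H j).edgeSet
  rw [Set.disjoint_left]
  intro e hei hej
  exact hij ((h2 e ((H i).edgeSet_subset hei)).unique hei hej)

/-- **Polynomial tree-connectivity suffices for tree decompositions.** Let `T` be a finite tree with
`m` edges and `G` a finite simple graph whose number of edges is divisible by `m`. If `G` contains
`10 ^ 12 * m ^ 12` pairwise edge-disjoint spanning trees, or if `G` is `10 ^ 12 * m ^ 12`-edge-connected
(deleting fewer edges leaves the graph connected), then the edges of `G` split into edge-disjoint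
subgraphs isomorphic to `T`. -/
theorem result {V : Type} [Fintype V] [DecidableEq V] (G : SimpleGraph V) [DecidableRel G.Adj]
    {W : Type} [Fintype W] [DecidableEq W] (T : SimpleGraph W) [DecidableRel T.Adj]
    (hT : T.IsTree)
    (hG : (∃ F : Fin (10 ^ 12 * T.edgeFinset.card ^ 12) → SimpleGraph V,
          (∀ i, F i ≤ G ∧ (F i).IsTree) ∧
          Pairwise (fun i j => Disjoint (F i) (F j))) ∨
      (∀ s : Set (Sym2 V), s.ncard < 10 ^ 12 * T.edgeFinset.card ^ 12 →
        (G.deleteEdges s).Connected))
    (hdiv : T.edgeFinset.card ∣ G.edgeFinset.card) :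
    ∃ (n : ℕ) (H : Fin n → G.Subgraph),
      (∀ i, Nonempty (T ≃g (H i).coe)) ∧
      Pairwise (fun i j => Disjoint (H i).edgeSet (H j).edgeSet) ∧
      (∀ e ∈ G.edgeSet, ∃ i, e ∈ (H i).edgeSet) := by
  rcases hG with hF | hG
  · obtain ⟨F, hF1, hF2⟩ := hF
    refine core G T hT ?_ hdiv
    intro U hU hU'
    classical
    -- every spanning tree crosses the cut
    obtain ⟨a, ha⟩ := hU
    obtain ⟨b, hb⟩ : ∃ b, b ∉ U := by
      by_contra hcon
      push Not at hcon
      exact hU' (Finset.eq_univ_of_forall hcon)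
    have hcross : ∀ i, ∃ p : V × V, (F i).Adj p.1 p.2 ∧ p.1 ∈ U ∧ p.2 ∉ U := by
      intro i
      obtain ⟨w⟩ := (hF1 i).2.connected.preconnected a b
      obtain ⟨d, hd, hd1, hd2⟩ := w.exists_boundary_dart (U : Set V) (by simpa using ha)
        (by simpa using hb)
      exact ⟨(d.fst, d.snd), d.adj, by simpa using hd1, by simpa using hd2⟩
    choose p hp1 hp2 hp3 using hcross
    have hinj : Function.Injective p := by
      intro i j hij
      by_contra hne
      have h := hF2 hne
      have h' : (F i ⊓ F j) = ⊥ := disjoint_iff.mp h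
      have h3 : (F i ⊓ F j).Adj (p i).1 (p i).2 := by
        refine ⟨hp1 i, ?_⟩
        rw [hij]
        exact hp1 j
      rw [h'] at h3
      exact h3
    have hcard : (Set.range p).ncard = 10 ^ 12 * T.edgeFinset.card ^ 12 := by
      rw [← Set.image_univ, Set.ncard_image_of_injective _ hinj, Set.ncard_univ,
        Nat.card_eq_fintype_card, Fintype.card_fin]
    have hsub : Set.range p ⊆ {p : V × V | G.Adj p.1 p.2 ∧ p.1 ∈ U ∧ p.2 ∉ U} := by
      rintro _ ⟨i, rfl⟩
      exact ⟨(hF1 i).1 (hp1 i), hp2 i, hp3 i⟩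
    calc 1000000000000 * T.edgeFinset.card ^ 12
        = 10 ^ 12 * T.edgeFinset.card ^ 12 := by norm_num
      _ = (Set.range p).ncard := hcard.symm
      _ ≤ _ := Set.ncard_le_ncard hsub (Set.toFinite _)
  · refine core G T hT ?_ hdiv
    intro U hU hU'
    refine Pool.Agent.H9.TD.cut_of_connected G _ ?_ U hU ?_
    · intro s hs
      exact hG s (by norm_num at hs ⊢; exact hs)
    · by_contra hcon
      push Not at hcon
      exact hU' (Finset.eq_univ_of_forall hcon)

end Pool.Agent.Results.MP_1c8ed6_co.PolynomialTreeConnectivity
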